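import Pool.Agent.H7.HD.All8
import Pool.Agent.H7.HD.Targets9

/-!
# BB: the base for strongly compact cardinals
-/

open Ordinal Cardinal Order Set
open scoped ZFSet

universe u

namespace Pool.Agent.H34.HD9.BB

open HD

theorem bb : T_B2.{u} := by
  intro D K₀ hD hS hDK₀
  have hSV : T_SV.{u} := Pool.Agent.H59.HD.SV.sv Pool.Agent.H74.HD.SW.sw Pool.Agent.H48.HD.SR.sr
    (Pool.Agent.H33.HD.NA.na All.vg) All.ub
  have hK₀ : K₀.IsRegular := hS.1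
  have hlim := Pool.Agent.H7.HD.OM.om All.p2 K₀ hS
  have hns : ∀ M : Cardinal.{u}, M.IsRegular → M < D → ∀ κ : Ordinal.{u}, K₀ < κ.cof →
      NS K₀.ord M.ord κ := by
    intro M hM hMD κ hκ
    by_contra h
    obtain ⟨-, -, κ', hκ0, hκK, -, hno⟩ := hS
    exact hno (hSV D K₀ M κ hD hK₀ hDK₀ hM hMD (hDK₀.trans hκ).le h κ' hκ0 hκK)
  refine ⟨hD.1, hD.2.1, hK₀, hDK₀.le, hns, ?_, Pool.Agent.H74.HD.SW.sw D hD⟩
  intro en hen M hM hMD κ hκ X hX hP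
  have h0 : ℵ₀ < κ.cof := hS.2.1.trans hκ
  exact Pool.Agent.H7.HD.AT.at_ en hen M K₀.ord κ h0 (by rw [Cardinal.card_ord]; exact hκ)
    (fun τ hτ => by
      obtain ⟨β, hβ, hpow⟩ := hlim τ hτ
      exact ⟨β, (Cardinal.lt_ord.1 hβ).trans hκ, hpow⟩) (hns M hM hMD κ hκ) X hX hP

end Pool.Agent.H34.HD9.BB
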