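import Pool.Agent.H7.HD.All
import Pool.Agent.H7.HD.Targets9

/-!
# PH: the positivity notion given by a least upper bound
-/

open Ordinal Cardinal Order Set
open scoped ZFSet

universe u

namespace Pool.Agent.H34.HD9.PH

open HD

theorem ph (hCE : T_CE.{u}) (hCU : T_CU.{u}) (hCD : T_CD.{u}) : T_PH.{u} := by
  intro en K S t h hen hK hK0 hS ht hlt hLU
  have hcof : ℵ₀ < K.ord.cof := by rw [hK.cof_ord]; exact hK0
  refine ⟨?_, ?_, ?_, ?_⟩
  · intro X Y hX hXY
    exact Pos.mono hX fun b hb hbX _ =>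
      ⟨hbX.1, hXY _ (ht.lt K hK.aleph0_le b hb _ (hlt b hb)) hbX.2⟩
  · intro X hX
    have hC : Clb K.ord (univ : Set Ordinal.{u}) :=
      ⟨fun a ha => ⟨succ a, (Cardinal.isSuccLimit_ord hK.aleph0_le).succ_lt ha, lt_succ a, trivial⟩,
        fun _ _ _ _ => trivial⟩
    obtain ⟨b, hb, -, hbX, -⟩ := hX univ hC
    exact ⟨_, ht.lt K hK.aleph0_le b hb _ (hlt b hb), hbX.2⟩
  · intro τ hτ X hX hP
    refine All.va _ K.ord hcof τ hτ (fun i => {a | a ∈ S ∧ t a (h a) ∈ X i}) hX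
      (Pos.mono hP fun b _ hbX _ => ?_)
    obtain ⟨h1, i, hi, h2⟩ := hbX
    exact ⟨i, hi, h1, h2⟩
  · intro Y hY
    by_cases hSp : Pos (ℵ₀ : Cardinal.{u}).ord K.ord S
    · obtain ⟨g, hg⟩ := hCE en _ K.ord S h hen hcof hSp hLU
      have hY' : DO fun w : ℕ → Ordinal.{u} => Y (t (w 0) (w 1)) (fun n => w (n + 4)) := by
        refine (DO.ex (R := fun x w => x = t (w 0) (w 1) ∧ Y x (fun n => w (n + 4)))
          (DO.and ?_ ?_)).congr fun w => by simp
        · exact DO.s3 (X := fun a b c => c = t a b) ht.dfn 1 2 0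
        · exact (hY.ren fun n => if n = 0 then 0 else n + 4).congr fun w => by simp
      have h1 := hCD en (ℵ₀ : Cardinal.{u}).ord S hen hS
        (fun a b w => Y (t a b) (fun n => w (n + 2))) hY' 0 1
      have h2 := DO.sub (R := fun x w => ∃ h' : Ordinal.{u} → Ordinal.{u},
        Cl en (ℵ₀ : Cardinal.{u}).ord x S (w 0) h' ∧ Pos (ℵ₀ : Cardinal.{u}).ord x
          {a | a ∈ S ∧ Y (t a (h' a)) (fun n => w (n + 1))}) K.ord h1
      have h3 := DO.sub (R := fun x w => ∃ h' : Ordinal.{u} → Ordinal.{u},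
        Cl en (ℵ₀ : Cardinal.{u}).ord K.ord S x h' ∧ Pos (ℵ₀ : Cardinal.{u}).ord K.ord
          {a | a ∈ S ∧ Y (t a (h' a)) w}) g h2
      refine h3.congr fun w => ⟨fun hP => ⟨h, hg, hP⟩, ?_⟩
      rintro ⟨h', hg', hP⟩
      have hnull := hCU en _ K.ord S g h h' hen hcof hg hg'
      refine Pos.mono (pos_diff All.va hcof hP hnull) fun b _ hb _ => ?_
      obtain ⟨⟨hbS, hbY⟩, hne⟩ := hb
      have heq : h b = h' b := by
        by_contra hc
        exact hne ⟨hbS, hc⟩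
      refine ⟨hbS, ?_⟩
      change Y (t b (h b)) w
      rw [heq]
      exact hbY
    · refine (DO.cst False).congr fun w => iff_false_intro fun hP => hSp ?_
      exact Pos.mono hP fun b _ hb _ => hb.1

end Pool.Agent.H34.HD9.PH
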