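import Pool.Agent.H7.HD.All6
import Pool.Agent.H7.HD.Targets10

/-!
# Y3: from the V-Fodor property of the power set to that of the next rank
-/

open Ordinal Cardinal Order Set
open scoped ZFSet

universe u

namespace Pool.Agent.H34.HD9.Y3

open HD

theorem X (hY2 : T_Y2.{u}) : T_Y3.{u} := by
  intro K hK hK0 hpow hVF
  obtain ⟨C1, e, hC1, he1, he2, he3⟩ := hVF
  obtain ⟨C2, dm, b, hC2, hinj, hmain, hds, hE⟩ := hY2 K hK hK0 hpow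
  choose E hEH hEm using fun ζ => hE (e ζ) (he1 ζ).1 K.ord le_rfl
  have hcof : ℵ₀ < K.ord.cof := by rw [hK.cof_ord]; exact hK0
  have hsub : ∀ (β : Ordinal.{u}) (S : Set Ordinal.{u}), os β S ⊆ β.toZFSet := by
    intro β S z hz
    obtain ⟨a, ha, -, rfl⟩ := mem_os.1 hz
    exact toZFSet_mem_toZFSet_iff.2 ha
  refine ⟨C1 ∩ C2, E, All.ci K.ord C1 C2 hcof hC1 hC2, fun ζ => ⟨hEH ζ, fun z hz => ?_⟩, ?_, ?_⟩
  · obtain ⟨p, hp, hpd, -, rfl⟩ := (hEm ζ z).1 hz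
    exact ((hmain K.ord le_rfl (Or.inr rfl) (b p)).2 ⟨p, hp, hpd, rfl⟩).2
  · rintro x ⟨hx, hxV⟩
    obtain ⟨z, hz, hyz⟩ := he2 (os K.ord {p | p ∈ dm ∧ b p ∈ x}) (hod_os (hds x hx) K.ord)
      (hsub _ _)
    refine ⟨z, hz, ?_⟩
    ext w
    rw [hEm z w]
    constructor
    · intro hw
      obtain ⟨p, hp, hpd, hpw⟩ := (hmain K.ord le_rfl (Or.inr rfl) w).1
        ⟨(hod_iff.1 hx).2 w hw, hxV hw⟩
      refine ⟨p, hp, hpd, ?_, hpw.symm⟩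
      rw [← hyz, mem_os]
      exact ⟨p, hp, ⟨hpd, by rw [hpw]; exact hw⟩, rfl⟩
    · rintro ⟨p, hp, hpd, hpe, rfl⟩
      rw [← hyz, mem_os] at hpe
      obtain ⟨a, -, ha, hpa⟩ := hpe
      rw [toZFSet_injective hpa]
      exact ha.2
  · rintro ξ ⟨hξ1, hξ2⟩ hξ x ⟨hx, hxV⟩
    obtain ⟨z, hz, hyz⟩ := he3 ξ hξ1 hξ (os ξ {p | p ∈ dm ∧ b p ∈ x}) (hod_os (hds x hx) ξ)
      (hsub _ _)
    refine ⟨z, hz, ?_⟩
    ext w
    rw [ZFSet.mem_inter, hEm z w]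
    constructor
    · intro hw
      have hwV := hxV hw
      obtain ⟨p, hp, hpd, hpw⟩ := (hmain ξ hξ.le (Or.inl hξ2) w).1 ⟨(hod_iff.1 hx).2 w hw, hwV⟩
      refine ⟨⟨p, hp.trans hξ, hpd, ?_, hpw.symm⟩, hwV⟩
      have h1 : p.toZFSet ∈ os ξ {p | p ∈ dm ∧ b p ∈ x} :=
        mem_os.2 ⟨p, hp, ⟨hpd, by rw [hpw]; exact hw⟩, rfl⟩
      rw [hyz, ZFSet.mem_inter] at h1
      exact h1.1
    · rintro ⟨⟨p, hp, hpd, hpe, rfl⟩, hwV⟩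
      have hwH : HOD (b p) := (hod_iff.1 (hEH z)).2 _ ((hEm z _).2 ⟨p, hp, hpd, hpe, rfl⟩)
      obtain ⟨p', hp', hpd', hpp⟩ := (hmain ξ hξ.le (Or.inl hξ2) (b p)).1 ⟨hwH, hwV⟩
      have h2 : p' = p := hinj p' hpd' p hpd hpp
      rw [h2] at hp'
      have h1 : p.toZFSet ∈ os ξ {p | p ∈ dm ∧ b p ∈ x} := by
        rw [hyz, ZFSet.mem_inter]
        exact ⟨hpe, toZFSet_mem_toZFSet_iff.2 hp'⟩
      obtain ⟨a, -, ha, hpa⟩ := mem_os.1 h1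
      rw [toZFSet_injective hpa]
      exact ha.2

end Pool.Agent.H34.HD9.Y3
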